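import Mathlib
import Pool.Agent.UnifS.Defs
import Pool.Agent.UnifS.Bidual
import Pool.Agent.UnifS.LOne

/-!
# Uniform property (S) does not pass to the bidual

`X = L¹[0,1]` has uniform property (S); its bidual contains two distinct atoms
`Φ₁, Φ₂` (limits along ultrafilters finer than the a.e. filter), and for
`x = (3/4) Φ₁ + (1/4) Φ₂`, `y = (1/4) Φ₁ + (3/4) Φ₂` one has `‖x‖ = ‖y‖ = ‖x - y‖ = 1` and
`‖x + z‖ = ‖y + z‖` for all `z` of norm at most `1/4`.
-/

open MeasureTheory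
open scoped ENNReal

namespace Pool.Agent.Results.MP_973dba_an.BidualFailsUniformS

open UnifS

lemma LOne_uniform : UniformPropertyS (Lp ℝ 1 lam) := by
  intro d a hd _ ha
  obtain ⟨N, hN⟩ := exists_nat_gt (1 / a)
  have hNpos : (0:ℝ) < N := lt_trans (by positivity) hN
  have hN0 : 0 < N := by exact_mod_cast hNpos
  have hNa : 1 / (N:ℝ) ≤ a := by
    rw [div_le_iff₀ hNpos]
    rw [div_lt_iff₀ ha] at hN
    linarith
  have hpos : 0 < ENNReal.ofReal (d / N) := ENNReal.ofReal_pos.mpr (by positivity)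
  refine lt_of_lt_of_le hpos ?_
  refine le_iInf fun x => le_iInf fun y => le_iInf fun hx => le_iInf fun hy => le_iInf fun hxy => ?_
  obtain ⟨z, hz1, hz2⟩ := LOne_estimate x y hx hy N hN0
  refine le_trans ?_ (le_iSup₂ (f := fun (z : Lp ℝ 1 lam) (_ : ‖z‖ ≤ a) =>
    ENNReal.ofReal |‖x + z‖ - ‖y + z‖|) z (by rw [hz1]; exact hNa))
  apply ENNReal.ofReal_le_ofReal
  calc d / N ≤ ‖x - y‖ / N := by gcongr
    _ ≤ ‖y + z‖ - ‖x + z‖ := hz2
    _ ≤ |‖y + z‖ - ‖x + z‖| := le_abs_self _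
    _ = |‖x + z‖ - ‖y + z‖| := abs_sub_comm _ _

lemma modulus_zero {Y : Type*} [NormedAddCommGroup Y] {x y : Y} (hx : ‖x‖ = 1) (hy : ‖y‖ = 1)
    (hxy : ‖x - y‖ = 1) (h : ∀ z, ‖z‖ ≤ 1 / 4 → ‖x + z‖ = ‖y + z‖) :
    modulus Y 1 (1 / 4) = 0 := by
  apply le_antisymm _ (zero_le)
  refine (iInf_le _ x).trans ((iInf_le _ y).trans ((iInf_le _ hx).trans ((iInf_le _ hy).trans
    ((iInf_le _ hxy.ge).trans ?_))))
  refine iSup_le fun z => iSup_le fun hz => ?_
  rw [h z hz, sub_self, abs_zero, ENNReal.ofReal_zero]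

lemma bidual_zero :
    modulus (StrongDual ℝ (StrongDual ℝ (Lp ℝ 1 lam))) 1 (1 / 4) = 0 := by
  have hA : MeasurableSet (Set.Icc (0:ℝ) (1/2)) := measurableSet_Icc
  have h1 : lam (Set.Icc (0:ℝ) (1/2)) ≠ 0 := by
    rw [lam, Measure.restrict_apply hA]
    have : Set.Icc (0:ℝ) (1/2) ∩ Set.Icc 0 1 = Set.Icc 0 (1/2) := by
      apply Set.inter_eq_left.mpr
      exact Set.Icc_subset_Icc_right (by norm_num)
    rw [this, Real.volume_Icc]
    simp
  have h2 : lam (Set.Icc (0:ℝ) (1/2))ᶜ ≠ 0 := by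
    rw [lam, Measure.restrict_apply hA.compl]
    have : Set.Ioc (1/2:ℝ) 1 ⊆ (Set.Icc (0:ℝ) (1/2))ᶜ ∩ Set.Icc 0 1 := by
      intro t ht
      refine ⟨fun h => ?_, ?_, ht.2⟩
      · exact absurd h.2 (not_le.mpr ht.1)
      · have := ht.1; linarith
    intro h0
    have h3 := measure_mono_null this h0
    rw [Real.volume_Ioc] at h3
    norm_num at h3
  obtain ⟨x, y, hx, hy, hxy, h⟩ := bidual_pair (μ := lam) hA h1 h2
  exact modulus_zero hx hy hxy h

/-- There is a Banach space with uniform property (S), namely `L¹[0,1]`, whose bidual satisfies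
`U(1;1/4) = 0`; so uniform property (S) does not pass to the bidual. -/
theorem result :
    ∃ (X : Type) (_ : NormedAddCommGroup X) (_ : NormedSpace ℝ X) (_ : CompleteSpace X),
      UniformPropertyS X ∧ modulus (StrongDual ℝ (StrongDual ℝ X)) 1 (1 / 4) = 0 ∧
        ¬ UniformPropertyS (StrongDual ℝ (StrongDual ℝ X)) := by
  refine ⟨Lp ℝ 1 lam, inferInstance, inferInstance, inferInstance, LOne_uniform, bidual_zero, ?_⟩
  intro h1
  have h2 := h1 1 (1/4) (by norm_num) (by norm_num) (by norm_num)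
  exact absurd bidual_zero h2.ne'

end Pool.Agent.Results.MP_973dba_an.BidualFailsUniformS
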